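import Pool.Agent.W_d1cfb0_h59.FinalCube

/-!
# Finitely many measure preserving homeomorphisms of the cube whose closed group contains every
measure preserving homeomorphism of the cube which fixes the boundary

For every `n ≥ 2` there are finitely many elements of `Σ_n`, the group of the measure preserving
homeomorphisms of `[0,1]^n`, such that every element of `Σ_n` which fixes all boundary points of the
cube is a limit, uniformly together with the inverses, of elements of the group they generate.
-/

namespace Pool.Agent.Results.MP_d1cfb0_an.BoundaryFixed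

open MeasureTheory

/-- The closed cube `I^n = [0,1]^n` in Euclidean space. -/
def Cube (n : ℕ) : Set (EuclideanSpace ℝ (Fin n)) := {x | ∀ i, x i ∈ Set.Icc (0:ℝ) 1}

/-- The homeomorphism `T` of the cube preserves Lebesgue measure, i.e. `T ∈ Σ_n`. -/
def PreservesVolume {n : ℕ} (T : Cube n ≃ₜ Cube n) : Prop :=
  ∀ A : Set (EuclideanSpace ℝ (Fin n)), MeasurableSet A → A ⊆ Cube n →
    volume (Subtype.val '' (T '' (Subtype.val ⁻¹' A))) = volume A

/-- The homeomorphism `T` of the cube fixes every boundary point (every point which has some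
coordinate equal to `0` or `1`). -/
def FixesBoundary {n : ℕ} (T : Cube n ≃ₜ Cube n) : Prop :=
  ∀ p : Cube n, (∃ i, (p : EuclideanSpace ℝ (Fin n)) i = 0 ∨
    (p : EuclideanSpace ℝ (Fin n)) i = 1) → T p = p

theorem result (n : ℕ) (hn : 2 ≤ n) :
    ∃ (k : ℕ) (T : Fin k → (Cube n ≃ₜ Cube n)), (∀ i, PreservesVolume (T i)) ∧
      ∀ h : Cube n ≃ₜ Cube n, PreservesVolume h → FixesBoundary h →
        ∀ ε : ℝ, 0 < ε → ∃ g ∈ Subgroup.closure (Set.range T),
          ∀ p : Cube n, dist (g p) (h p) < ε ∧ dist (g⁻¹ p) (h⁻¹ p) < ε := by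
  obtain ⟨k, T, h1, h2⟩ := Pool.Agent.W_d1cfb0_h59.final_boundary n hn (Cube n) rfl
  refine ⟨k, T, h1, fun h hv hb ε hε => ?_⟩
  obtain ⟨g, hg, hd⟩ := h2 h hv hb ε hε
  refine ⟨g, ?_, hd⟩
  exact hg {u | u ∈ Subgroup.closure (Set.range T)}
    (show (1 : Cube n ≃ₜ Cube n) ∈ Subgroup.closure (Set.range T) from Subgroup.one_mem _)
    (fun i => Subgroup.subset_closure ⟨i, rfl⟩)
    (fun u hu v hv => show v * u ∈ Subgroup.closure (Set.range T) from
      Subgroup.mul_mem _ hv hu)
    (fun u hu => show u⁻¹ ∈ Subgroup.closure (Set.range T) from Subgroup.inv_mem _ hu)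

end Pool.Agent.Results.MP_d1cfb0_an.BoundaryFixed
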