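import Pool.Agent.W_d1cfb0_h45.Final

/-!
# The group `Σ_2` of all area preserving homeomorphisms of the square is topologically finitely
generated

There are finitely many elements of `Σ_2` such that the subgroup which they generate is dense in `Σ_2`
for uniform convergence of maps and inverses. Nothing is assumed about the behaviour on the boundary.
-/

namespace Pool.Agent.Results.MP_d1cfb0_an.TwoDim

open MeasureTheory

/-- The closed square `I^2 = [0,1]^2` in the Euclidean plane. -/
def Square : Set (EuclideanSpace ℝ (Fin 2)) := {x | ∀ i, x i ∈ Set.Icc (0:ℝ) 1}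

/-- The homeomorphism `T` of the square preserves Lebesgue measure, i.e. `T ∈ Σ_2`. -/
def PreservesArea (T : Square ≃ₜ Square) : Prop :=
  ∀ A : Set (EuclideanSpace ℝ (Fin 2)), MeasurableSet A → A ⊆ Square →
    volume (Subtype.val '' (T '' (Subtype.val ⁻¹' A))) = volume A

theorem result :
    ∃ (k : ℕ) (T : Fin k → (Square ≃ₜ Square)), (∀ i, PreservesArea (T i)) ∧
      ∀ h : Square ≃ₜ Square, PreservesArea h →
        ∀ ε : ℝ, 0 < ε → ∃ g ∈ Subgroup.closure (Set.range T),
          ∀ p : Square, dist (g p) (h p) < ε ∧ dist (g⁻¹ p) (h⁻¹ p) < ε :=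
  Pool.Agent.W_d1cfb0_h45.two_dim_sq

end Pool.Agent.Results.MP_d1cfb0_an.TwoDim
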